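import Mathlib
import Pool.Agent.Results.MP_12bcff_ag.TwoVariables

/-!
# Several limit fixed points on a geometrically irreducible subvariety

Over every finite field `F` there is a polynomial self-map `T` of affine four-space with finitely
many fixed points, and a line `Y`, such that every geometric point of `Y` is eventually mapped to
one of exactly two fixed points of `T`, both of which attract a Zariski dense set of points
of `Y`.
-/

open MvPolynomial

namespace Pool.Agent.Results.MP_2dcdad_ag.TwoLimits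

open Pool.Agent.Results.MP_12bcff_ag.TwoVariables (seq eval_seq seq_X_natDegree seqB seqB_eq
  seqE_self exists_seq_eq_zero)

/-- The self-map of the geometric points of affine `n`-space over `F` given by the polynomials
`f 0, ..., f (n - 1)` over `F`. -/
noncomputable def polyMap {F : Type*} [Field F] {n : ℕ} (f : Fin n → MvPolynomial (Fin n) F)
    (v : Fin n → AlgebraicClosure F) : Fin n → AlgebraicClosure F :=
  fun i => aeval v (f i)

/-- The geometric points of the closed subvariety of affine `n`-space over `F` defined by the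
vanishing of all polynomials in `S`. -/
def geomPoints {F : Type*} [Field F] {n : ℕ} (S : Set (MvPolynomial (Fin n) F)) :
    Set (Fin n → AlgebraicClosure F) :=
  {v | ∀ h ∈ S, aeval v h = 0}

/-- A subset of `Fbar ^ n` is irreducible: nonempty, and if a product of two polynomials vanishes
on it, one of the factors does. -/
def IsIrred {K : Type*} [Field K] {n : ℕ} (Y : Set (Fin n → K)) : Prop :=
  Y.Nonempty ∧ ∀ a b : MvPolynomial (Fin n) K, (∀ v ∈ Y, eval v (a * b) = 0) →
    (∀ v ∈ Y, eval v a = 0) ∨ (∀ v ∈ Y, eval v b = 0)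

/-- `D` is Zariski dense in `Y`: `D ⊆ Y` and every polynomial that vanishes on `D` vanishes
on `Y`. -/
def IsZariskiDenseIn {K : Type*} [Field K] {n : ℕ} (D Y : Set (Fin n → K)) : Prop :=
  D ⊆ Y ∧ ∀ a : MvPolynomial (Fin n) K, (∀ v ∈ D, eval v a = 0) → ∀ v ∈ Y, eval v a = 0

/-- The fixed points of `T` that are reached, by some iterate, from points of `Y`. -/
def limits {X : Type*} (T : X → X) (Y : Set X) : Set X :=
  {P | T P = P ∧ ∃ Q ∈ Y, ∃ k, (T^[k]) Q = P}

section

variable {F : Type*} [Field F] (p : ℕ)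

/-- parity bit. -/
def sbit (K : Type*) [Field K] : ℕ → K
  | 0 => 0
  | n + 1 => 1 - sbit K n

lemma sbit_cases (K : Type*) [Field K] (n : ℕ) : sbit K n = 0 ∨ sbit K n = 1 := by
  induction n with
  | zero => exact Or.inl rfl
  | succ n ih => rcases ih with h | h <;> simp [sbit, h]

lemma sbit_even (K : Type*) [Field K] (n : ℕ) : sbit K (2 * n) = 0 := by
  induction n with
  | zero => rfl
  | succ n ih =>
    have : 2 * (n + 1) = 2 * n + 1 + 1 := by ring
    rw [this, sbit, sbit, ih]; ring

lemma sbit_odd (K : Type*) [Field K] (n : ℕ) : sbit K (2 * n + 1) = 1 := by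
  rw [sbit, sbit_even]; ring

/-- The polynomial map. -/
noncomputable def tf (F : Type*) [Field F] (p : ℕ) : Fin 4 → MvPolynomial (Fin 4) F :=
  ![X 0 ^ p * (1 - (X 0 * X 1 ^ p) ^ ((p - 1) ^ 2)),
    X 0 * X 1 ^ p,
    X 0 * X 1 ^ p - X 0 * X 1 ^ (p - 1) * X 2,
    X 3 ^ p * (1 - X 1 ^ ((p - 1) ^ 2)) + X 1 ^ ((p - 1) ^ 2 - 1) * X 2]

lemma tf_apply (v : Fin 4 → AlgebraicClosure F) :
    polyMap (tf F p) v = ![v 0 ^ p * (1 - (v 0 * v 1 ^ p) ^ ((p - 1) ^ 2)), v 0 * v 1 ^ p,
      v 0 * v 1 ^ p - v 0 * v 1 ^ (p - 1) * v 2,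
      v 3 ^ p * (1 - v 1 ^ ((p - 1) ^ 2)) + v 1 ^ ((p - 1) ^ 2 - 1) * v 2] := by
  funext i
  fin_cases i <;> simp [polyMap, tf]

variable {p}

/-- The first three coordinates of the orbit of `(t, 1, 0, 0)`. -/
lemma iter_first [hp : Fact p.Prime] (t : AlgebraicClosure F) (n : ℕ) :
    ((polyMap (tf F p))^[n] ![t, 1, 0, 0]) 0 = (seq p t n).1 ∧
    ((polyMap (tf F p))^[n] ![t, 1, 0, 0]) 1 = (seq p t n).2 ∧
    ((polyMap (tf F p))^[n] ![t, 1, 0, 0]) 2 = (seq p t n).2 * sbit (AlgebraicClosure F) n := by
  induction n with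
  | zero => simp [seq, sbit]
  | succ n ih =>
    obtain ⟨h0, h1, h2⟩ := ih
    rw [Function.iterate_succ_apply', tf_apply]
    have hpp : ∀ y : AlgebraicClosure F, y ^ (p - 1) * y = y ^ p := fun y => by
      rw [← pow_succ]; congr 1; have := hp.out.one_lt; omega
    refine ⟨?_, ?_, ?_⟩
    · simp [h0, h1, seq]
    · simp [h0, h1, seq]
    · simp only [Matrix.cons_val, h0, h1, h2, seq, sbit]
      linear_combination (-(seq p t n).1 * sbit (AlgebraicClosure F) n) * hpp (seq p t n).2

/-- Before the first zero of `φ` the sequence `N` is nonzero. -/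
lemma snd_ne_zero {K : Type*} [Field K] {t : K} {m : ℕ} (h : ∀ j < m, (seq p t j).1 ≠ 0) :
    ∀ j ≤ m, (seq p t j).2 ≠ 0 := by
  intro j
  induction j with
  | zero => intro _; simp [seq]
  | succ j ih =>
    intro hj
    have h1 := ih (by omega)
    have h2 := h j (by omega)
    simp only [seq]
    exact mul_ne_zero h2 (pow_ne_zero _ h1)

/-- The death time: the first `m` with `φ_m = 0`; there `N_m ^ κ = 1`. -/
lemma exists_first [hp : Fact p.Prime] {K : Type*} [Field K] [CharP K p] {t : K} {n : ℕ}
    (hn : 1 ≤ n) (ht : t ^ (p ^ n) = t) :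
    ∃ m, (seq p t m).1 = 0 ∧ (seq p t m).2 ^ ((p - 1) ^ 2) = 1 := by
  classical
  obtain ⟨m0, _, h0⟩ := exists_seq_eq_zero (p := p) hn ht
  have hex : ∃ m, (seq p t m).1 = 0 := ⟨m0, by rw [h0]⟩
  refine ⟨Nat.find hex, Nat.find_spec hex, ?_⟩
  have hmin : ∀ j < Nat.find hex, (seq p t j).1 ≠ 0 := fun j hj => Nat.find_min hex hj
  have hspec := Nat.find_spec hex
  rcases Nat.eq_zero_or_pos (Nat.find hex) with h | h
  · rw [h]; simp [seq]
  · obtain ⟨k, hk⟩ : ∃ k, Nat.find hex = k + 1 := ⟨Nat.find hex - 1, by omega⟩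
    rw [hk] at hspec ⊢
    have hk' := hmin k (by omega)
    simp only [seq, mul_eq_zero] at hspec
    rcases hspec with h1 | h1
    · exact absurd (pow_eq_zero_iff hp.out.ne_zero |>.1 h1) hk'
    · simp only [seq]
      linear_combination -h1

/-- If `φ_m = 0` and `N_m ^ κ = 1`, the orbit of `(t,1,0,0)` is at `(0,0,0,s_m)` from time `m + 1`
on. -/
lemma iter_limit [hp : Fact p.Prime] {t : AlgebraicClosure F} {m : ℕ}
    (h0 : (seq p t m).1 = 0) (h1 : (seq p t m).2 ^ ((p - 1) ^ 2) = 1) :
    (polyMap (tf F p))^[m + 1] ![t, 1, 0, 0] = ![0, 0, 0, sbit (AlgebraicClosure F) m] := by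
  obtain ⟨e0, e1, e2⟩ := iter_first (F := F) (p := p) t m
  rw [Function.iterate_succ_apply', tf_apply, e0, e1, e2, h0]
  have hk : (p - 1) ^ 2 ≠ 0 := pow_ne_zero 2 (by have := hp.out.one_lt; omega)
  have hk' : (seq p t m).2 ^ ((p - 1) ^ 2 - 1) * ((seq p t m).2 * sbit (AlgebraicClosure F) m) =
      sbit (AlgebraicClosure F) m := by
    rw [← mul_assoc, ← pow_succ, Nat.sub_add_cancel (Nat.one_le_iff_ne_zero.2 hk), h1, one_mul]
  rw [h1, hk']
  simp [hp.out.ne_zero]

lemma fixed_s [hp : Fact p.Prime] (m : ℕ) :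
    polyMap (tf F p) ![0, 0, 0, sbit (AlgebraicClosure F) m] =
      ![0, 0, 0, sbit (AlgebraicClosure F) m] := by
  rw [tf_apply]
  have hp1 : p - 1 ≠ 0 := by have := hp.out.one_lt; omega
  rcases sbit_cases (AlgebraicClosure F) m with h | h <;>
    simp [h, hp.out.ne_zero, hp1]

/-- An iterate that is at a fixed point stays there. -/
lemma iterate_of_le {X : Type*} {T : X → X} {Q P : X} {a b : ℕ} (h : T^[a] Q = P)
    (hP : T P = P) (hab : a ≤ b) : T^[b] Q = P := by
  obtain ⟨c, rfl⟩ := Nat.exists_eq_add_of_le hab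
  rw [add_comm, Function.iterate_add_apply, h]
  exact Function.iterate_fixed hP c

lemma limit_unique {X : Type*} {T : X → X} {Q P P' : X} {a b : ℕ} (h : T^[a] Q = P)
    (hP : T P = P) (h' : T^[b] Q = P') (hP' : T P' = P') : P = P' := by
  have h1 := iterate_of_le h hP (le_max_left a b)
  have h2 := iterate_of_le h' hP' (le_max_right a b)
  exact h1.symm.trans h2

end

/-- Every element of the algebraic closure of a finite field of characteristic `p` is fixed by a
power of the `p`-Frobenius. -/
lemma exists_pow_eq {F : Type*} [Field F] [Finite F] (p : ℕ) [Fact p.Prime] [CharP F p]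
    (t : AlgebraicClosure F) : ∃ n, 1 ≤ n ∧ t ^ (p ^ n) = t := by
  have : Algebra.IsAlgebraic F (AlgebraicClosure F) := inferInstance
  have hint : IsIntegral F t := (Algebra.IsAlgebraic.isAlgebraic t).isIntegral
  have : FiniteDimensional F (IntermediateField.adjoin F {t}) :=
    IntermediateField.adjoin.finiteDimensional hint
  have : Finite (IntermediateField.adjoin F {t}) := Module.finite_of_finite F
  have : Fintype (IntermediateField.adjoin F {t}) := Fintype.ofFinite _
  have : CharP (IntermediateField.adjoin F {t}) p := charP_of_injective_algebraMap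
    (algebraMap F (IntermediateField.adjoin F {t})).injective p
  obtain ⟨n, _, hcard⟩ := FiniteField.card (IntermediateField.adjoin F {t}) p
  refine ⟨n, n.2, ?_⟩
  have := FiniteField.pow_card (⟨t, IntermediateField.mem_adjoin_simple_self F t⟩ :
    IntermediateField.adjoin F {t})
  rw [hcard] at this
  exact congrArg Subtype.val this

/-- For every `n ≥ 1` some `t` has death time `n`. -/
lemma exists_death {K : Type*} [Field K] [IsAlgClosed K] (p : ℕ) [hp : Fact p.Prime] (n : ℕ)
    (hn : 1 ≤ n) : ∃ t : K, (seq p t n).1 = 0 ∧ (seq p t n).2 ^ ((p - 1) ^ 2) = 1 := by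
  obtain ⟨k, rfl⟩ : ∃ k, n = k + 1 := ⟨n - 1, by omega⟩
  obtain ⟨h1, h2⟩ := seq_X_natDegree (R := K) p hp.out k
  have hne : (seq p (Polynomial.X : Polynomial K) k).1 ≠ 0 := by
    intro h; rw [h] at h1; simp at h1
  have hdeg : 1 ≤ (seq p (Polynomial.X : Polynomial K) (k + 1)).2.natDegree := by
    change 1 ≤ ((seq p (Polynomial.X : Polynomial K) k).1 *
      (seq p (Polynomial.X : Polynomial K) k).2 ^ p).natDegree
    rw [Polynomial.natDegree_mul hne (pow_ne_zero _ h2)]; omega
  obtain ⟨t, ht⟩ := IsAlgClosed.exists_root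
    ((seq p (Polynomial.X : Polynomial K) (k + 1)).2 - 1) (by
      intro h
      have h3 : ((seq p (Polynomial.X : Polynomial K) (k + 1)).2 - 1).natDegree = 0 :=
        Polynomial.natDegree_eq_of_degree_eq_some h
      rw [Polynomial.natDegree_sub_eq_left_of_natDegree_lt (by
        rw [Polynomial.natDegree_one]; omega)] at h3
      omega)
  have h4 : (seq p t (k + 1)).2 = 1 := by
    have := congrArg Prod.snd (eval_seq p t (k + 1))
    simp only at this
    rw [← this]
    have ht' := ht
    rw [Polynomial.IsRoot.def, Polynomial.eval_sub, Polynomial.eval_one] at ht'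
    linear_combination ht'
  refine ⟨t, ?_, by rw [h4, one_pow]⟩
  have h5 : (seq p t k).1 * (seq p t k).2 ^ p = 1 := h4
  simp [seq, h5]

/-- The zero set of a nonzero univariate polynomial is finite. -/
lemma finite_zeros {K : Type*} [Field K] (q : Polynomial K) (hq : q ≠ 0) :
    {x : K | q.eval x = 0}.Finite :=
  Polynomial.finite_setOfPred_isRoot hq

/-- The map has finitely many fixed points. -/
lemma finite_fixed {F : Type*} [Field F] (p : ℕ) [hp : Fact p.Prime] :
    {P : Fin 4 → AlgebraicClosure F | polyMap (tf F p) P = P}.Finite := by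
  have hp1 : p - 1 ≠ 0 := by have := hp.out.one_lt; omega
  have hk0 : (p - 1) ^ 2 ≠ 0 := pow_ne_zero 2 hp1
  set κ := (p - 1) ^ 2 with hκ
  have hA1 : {y : AlgebraicClosure F | y = 0 ∨ 2 * y ^ κ = 1}.Finite := by
    have hne : (Polynomial.C (2 : AlgebraicClosure F) * Polynomial.X ^ κ - 1) ≠ 0 := by
      intro h
      have := congrArg (Polynomial.eval 0) h
      simp [hk0] at this
    refine (finite_zeros (Polynomial.X * (Polynomial.C 2 * Polynomial.X ^ κ - 1))
      (mul_ne_zero Polynomial.X_ne_zero hne)).subset ?_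
    rintro y (h | h)
    · simp [h]
    · simp [h]
  have hpp : ∀ y : AlgebraicClosure F, y ^ (p - 1) * y = y ^ p := fun y => by
    rw [← pow_succ]; congr 1; have := hp.out.one_lt; omega
  have hB : {x : AlgebraicClosure F | x ^ p = x}.Finite := by
    have hne : (Polynomial.X ^ p - Polynomial.X : Polynomial (AlgebraicClosure F)) ≠ 0 := by
      intro h
      have h1 := congrArg Polynomial.natDegree h
      rw [Polynomial.natDegree_sub_eq_left_of_natDegree_lt (by
        rw [Polynomial.natDegree_X, Polynomial.natDegree_X_pow]; exact hp.out.one_lt),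
        Polynomial.natDegree_X_pow] at h1
      exact hp.out.ne_zero h1
    refine (finite_zeros _ hne).subset ?_
    intro x hx
    have hx' : x ^ p = x := hx
    simp [hx']
  have hC : {w : AlgebraicClosure F | 4 * w = 2 * w ^ p + 1}.Finite := by
    have hne : (Polynomial.C (2 : AlgebraicClosure F) * Polynomial.X ^ p + 1 -
        Polynomial.C 4 * Polynomial.X) ≠ 0 := by
      intro h
      have := congrArg (Polynomial.eval 0) h
      simp [hp.out.ne_zero] at this
    refine (finite_zeros _ hne).subset ?_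
    intro x hx
    have hx' : 4 * x = 2 * x ^ p + 1 := hx
    simp [hx']
  set A1 := {y : AlgebraicClosure F | y = 0 ∨ 2 * y ^ κ = 1}
  set A0 := {x : AlgebraicClosure F | x ^ p = x} ∪ (fun y => (y ^ (p - 1))⁻¹) '' A1
  set A2 := ({0} : Set (AlgebraicClosure F)) ∪ (fun y => y / 2) '' A1
  set A3 := {x : AlgebraicClosure F | x ^ p = x} ∪
    {w : AlgebraicClosure F | 4 * w = 2 * w ^ p + 1}
  have hfin : (Set.univ.pi ![A0, A1, A2, A3]).Finite := by
    apply Set.Finite.pi
    intro i
    fin_cases i
    · exact hB.union (hA1.image _)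
    · exact hA1
    · exact (Set.finite_singleton _).union (hA1.image _)
    · exact hB.union hC
  refine hfin.subset ?_
  intro v hv
  have hv' : polyMap (tf F p) v = v := hv
  rw [tf_apply] at hv'
  have e0 := congrFun hv' 0
  have e1 := congrFun hv' 1
  have e2 := congrFun hv' 2
  have e3 := congrFun hv' 3
  simp only [Matrix.cons_val] at e0 e1 e2 e3
  rw [← hκ] at e0 e3
  by_cases hy : v 1 = 0
  · rw [hy, zero_pow hp.out.ne_zero, mul_zero, zero_pow hk0, sub_zero, mul_one] at e0
    rw [hy, zero_pow hp.out.ne_zero, mul_zero, zero_pow hp1, mul_zero, zero_mul, sub_zero] at e2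
    rw [hy, zero_pow hk0, sub_zero, mul_one, ← e2, mul_zero, add_zero] at e3
    intro i _
    fin_cases i
    · exact Or.inl e0
    · exact Or.inl hy
    · exact Or.inl e2.symm
    · exact Or.inl e3
  · have h1 : v 0 * v 1 ^ (p - 1) = 1 := by
      apply mul_right_cancel₀ hy
      rw [mul_assoc, hpp, e1, one_mul]
    have hx : v 0 ≠ 0 := by
      intro h; rw [h, zero_mul] at h1; exact zero_ne_one h1
    have h2 : v 0 ^ (p - 1) * (1 - v 1 ^ κ) = 1 := by
      apply mul_right_cancel₀ hx
      rw [e1] at e0
      linear_combination e0 + (1 - v 1 ^ κ) * hpp (v 0)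
    have h3 : v 0 ^ (p - 1) * v 1 ^ κ = 1 := by
      rw [hκ, sq, pow_mul, ← mul_pow, h1, one_pow]
    have h4 : 2 * v 1 ^ κ = 1 := by
      have h5 : v 0 ^ (p - 1) = 2 := by linear_combination h2 + h3
      rw [h5] at h3
      exact h3
    have h20 : (2 : AlgebraicClosure F) ≠ 0 := by
      intro h; rw [h, zero_mul] at h4; exact zero_ne_one h4
    have h6 : 2 * v 2 = v 1 := by
      rw [e1, h1] at e2
      linear_combination -e2
    have h7 : v 1 ^ (κ - 1) * v 1 = v 1 ^ κ := by
      rw [← pow_succ, Nat.sub_add_cancel (Nat.one_le_iff_ne_zero.2 hk0)]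
    have h8 : 4 * v 3 = 2 * v 3 ^ p + 1 := by
      have h9 : 4 * (v 1 ^ (κ - 1) * v 2) = 1 := by
        linear_combination 2 * v 1 ^ (κ - 1) * h6 + 2 * h7 + h4
      linear_combination -4 * e3 + h9 - 2 * v 3 ^ p * h4
    intro i _
    fin_cases i
    · refine Or.inr ⟨v 1, Or.inr h4, ?_⟩
      simp only
      exact inv_eq_of_mul_eq_one_left h1
    · exact Or.inr h4
    · refine Or.inr ⟨v 1, Or.inr h4, ?_⟩
      simp only
      rw [← h6]
      field_simp
      rfl
    · exact Or.inr h8

/-- **Several limit fixed points.**  Over every finite field `F` there are a polynomial self-map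
`T` of affine four-space with only finitely many (geometric) fixed points, and a geometrically
irreducible closed subvariety `Y`, both defined over `F`, such that every geometric point of `Y` is
mapped to a fixed point of `T` by some iterate, exactly two fixed points of `T` occur as such
limits, and each of the two is the limit of a Zariski dense set of geometric points of `Y`. -/
theorem result (F : Type*) [Field F] [Finite F] :
    ∃ (f : Fin 4 → MvPolynomial (Fin 4) F) (S : Set (MvPolynomial (Fin 4) F)),
      IsIrred (geomPoints S) ∧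
      (∀ Q ∈ geomPoints S, ∃ k, polyMap f ((polyMap f)^[k] Q) = (polyMap f)^[k] Q) ∧
      (limits (polyMap f) (geomPoints S)).ncard = 2 ∧
      (∀ P ∈ limits (polyMap f) (geomPoints S),
        IsZariskiDenseIn {Q ∈ geomPoints S | ∃ k, (polyMap f)^[k] Q = P} (geomPoints S)) ∧
      {P | polyMap f P = P}.Finite := by
  obtain ⟨p, hchar⟩ := CharP.exists F
  have hpf : Fact p.Prime := ⟨CharP.char_is_prime F p⟩
  have hp : p.Prime := Fact.out
  have : CharP (AlgebraicClosure F) p := charP_of_injective_algebraMap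
    (algebraMap F (AlgebraicClosure F)).injective p
  set T := polyMap (tf F p) with hTdef
  set S : Set (MvPolynomial (Fin 4) F) := {X 1 - 1, X 2, X 3} with hS
  have hY : geomPoints S = {v : Fin 4 → AlgebraicClosure F | v 1 = 1 ∧ v 2 = 0 ∧ v 3 = 0} := by
    ext v
    simp [geomPoints, hS, sub_eq_zero]
  have hform : ∀ v : Fin 4 → AlgebraicClosure F, v ∈ geomPoints S → v = ![v 0, 1, 0, 0] := by
    intro v hv
    rw [hY] at hv
    obtain ⟨h1, h2, h3⟩ := hv
    funext i
    fin_cases i
    · rfl
    · simpa using h1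
    · simpa using h2
    · simpa using h3
  have hmem : ∀ t : AlgebraicClosure F, (![t, 1, 0, 0] : Fin 4 → AlgebraicClosure F) ∈
      geomPoints S := by
    intro t; rw [hY]; simp
  -- restricting polynomials to the line
  have hline : ∀ (a : MvPolynomial (Fin 4) (AlgebraicClosure F)),
      ∃ q : Polynomial (AlgebraicClosure F), ∀ t, q.eval t = eval ![t, 1, 0, 0] a := by
    intro a
    refine ⟨aeval (![Polynomial.X, 1, 0, 0] : Fin 4 → Polynomial (AlgebraicClosure F)) a, ?_⟩
    intro t
    have h1 : (Polynomial.aeval t).comp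
        (aeval (R := AlgebraicClosure F) (![Polynomial.X, 1, 0, 0] :
          Fin 4 → Polynomial (AlgebraicClosure F))) =
        aeval (R := AlgebraicClosure F) (![t, 1, 0, 0] : Fin 4 → AlgebraicClosure F) := by
      apply MvPolynomial.algHom_ext
      intro i
      fin_cases i <;> simp
    have h2 := congrArg (fun φ => φ a) h1
    simp only [AlgHom.comp_apply] at h2
    rw [Polynomial.coe_aeval_eq_eval] at h2
    rw [h2]
    rfl
  -- the limit of the point `(t,1,0,0)`
  have hlim : ∀ t : AlgebraicClosure F, ∃ m, (seq p t m).1 = 0 ∧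
      (seq p t m).2 ^ ((p - 1) ^ 2) = 1 := by
    intro t
    obtain ⟨n, hn, ht⟩ := exists_pow_eq p t
    exact exists_first (p := p) hn ht
  have hdens : ∀ (c : AlgebraicClosure F) (B : Set ℕ), B.Infinite →
      (∀ m ∈ B, 1 ≤ m ∧ sbit (AlgebraicClosure F) m = c) →
      IsZariskiDenseIn {Q ∈ geomPoints S | ∃ k, T^[k] Q = ![0, 0, 0, c]} (geomPoints S) := by
    intro c B hB hBc
    refine ⟨fun v hv => hv.1, ?_⟩
    intro a ha v hv
    obtain ⟨q, hq⟩ := hline a
    have hq0 : q = 0 := by
      -- infinitely many roots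
      choose! τ hτ using fun (n : ℕ) (hn : 1 ≤ n) =>
        exists_death (K := AlgebraicClosure F) p n hn
      have hroot : ∀ m ∈ B, q.IsRoot (τ m) := by
        intro m hm
        obtain ⟨hm1, hm2⟩ := hBc m hm
        rw [Polynomial.IsRoot.def, hq]
        apply ha
        refine ⟨hmem _, m + 1, ?_⟩
        rw [← hm2]
        exact iter_limit (F := F) (hτ m hm1).1 (hτ m hm1).2
      have hinj : Set.InjOn τ B := by
        intro m hm m' hm' hmm
        -- the death time is unique
        have key : ∀ a b : ℕ, 1 ≤ a → 1 ≤ b → τ a = τ b → ¬ a < b := by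
          intro a b ha hb hab hlt
          have h1 := (hτ a ha).1
          have h2 := (hτ b hb).2
          rw [hab] at h1
          -- from `a` on, `φ = 0`, so `N_b = 0`
          have h3 : ∀ c, a ≤ c → (seq p (τ b) c).1 = 0 := by
            intro c hc
            induction c, hc using Nat.le_induction with
            | base => exact h1
            | succ c _ ih => simp [seq, ih, hp.ne_zero]
          obtain ⟨c, rfl⟩ : ∃ c, b = c + 1 := ⟨b - 1, by omega⟩
          have h4 : (seq p (τ (c + 1)) (c + 1)).2 = 0 := by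
            have := h3 c (by omega)
            simp [seq, this]
          rw [h4, zero_pow (pow_ne_zero 2 (by have := hp.one_lt; omega))] at h2
          exact zero_ne_one h2
        rcases lt_trichotomy m m' with h | h | h
        · exact absurd h (key m m' (hBc m hm).1 (hBc m' hm').1 hmm)
        · exact h
        · exact absurd h (key m' m (hBc m' hm').1 (hBc m hm).1 hmm.symm)
      apply Polynomial.eq_zero_of_infinite_isRoot
      exact (hB.image hinj).mono (by rintro _ ⟨m, hm, rfl⟩; exact hroot m hm)
    rw [hform v hv, ← hq, hq0, Polynomial.eval_zero]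
  have hinf0 : (Set.range fun n : ℕ => 2 * (n + 1)).Infinite :=
    Set.infinite_range_of_injective (fun a b h => by simpa using h)
  have hinf1 : (Set.range fun n : ℕ => 2 * n + 1).Infinite :=
    Set.infinite_range_of_injective (fun a b h => by simpa using h)
  have hd0 := hdens 0 _ hinf0 (by
    rintro _ ⟨n, rfl⟩; exact ⟨by simp only; omega, sbit_even _ _⟩)
  have hd1 := hdens 1 _ hinf1 (by
    rintro _ ⟨n, rfl⟩; exact ⟨by simp only; omega, sbit_odd _ _⟩)
  have hL : limits T (geomPoints S) = {![0, 0, 0, 0], ![0, 0, 0, 1]} := by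
    ext P
    constructor
    · rintro ⟨hP, Q, hQ, k, hk⟩
      obtain ⟨m, hm0, hm1⟩ := hlim (Q 0)
      have h1 := iter_limit (F := F) hm0 hm1
      rw [← hform Q hQ] at h1
      have h2 := limit_unique hk hP h1 (fixed_s m)
      rw [h2]
      rcases sbit_cases (AlgebraicClosure F) m with h | h <;> simp [h]
    · intro hP
      have f0 : T ![0, 0, 0, 0] = ![0, 0, 0, 0] := by
        have := fixed_s (F := F) (p := p) 0
        rwa [sbit] at this
      have f1 : T ![0, 0, 0, 1] = ![0, 0, 0, 1] := by
        have := fixed_s (F := F) (p := p) 1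
        rwa [show sbit (AlgebraicClosure F) 1 = 1 from sbit_odd _ 0] at this
      rcases hP with rfl | rfl
      · refine ⟨f0, ?_⟩
        obtain ⟨t, h0, h1⟩ := exists_death (K := AlgebraicClosure F) p 2 (by norm_num)
        refine ⟨_, hmem t, 3, ?_⟩
        have := iter_limit (F := F) h0 h1
        rwa [show sbit (AlgebraicClosure F) 2 = 0 from sbit_even _ 1] at this
      · refine ⟨f1, ?_⟩
        obtain ⟨t, h0, h1⟩ := exists_death (K := AlgebraicClosure F) p 1 (by norm_num)
        refine ⟨_, hmem t, 2, ?_⟩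
        have := iter_limit (F := F) h0 h1
        rwa [show sbit (AlgebraicClosure F) 1 = 1 from sbit_odd _ 0] at this
  refine ⟨tf F p, S, ⟨⟨_, hmem 0⟩, ?_⟩, ?_, ?_, ?_, ?_⟩
  · intro a b hab
    obtain ⟨qa, hqa⟩ := hline a
    obtain ⟨qb, hqb⟩ := hline b
    have h0 : qa * qb = 0 := by
      apply Polynomial.funext
      intro t
      have := hab _ (hmem t)
      rw [map_mul] at this
      rw [Polynomial.eval_mul, hqa, hqb, this, Polynomial.eval_zero]
    rcases mul_eq_zero.1 h0 with h | h
    · left
      intro v hv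
      rw [hform v hv, ← hqa, h, Polynomial.eval_zero]
    · right
      intro v hv
      rw [hform v hv, ← hqb, h, Polynomial.eval_zero]
  · intro Q hQ
    obtain ⟨m, hm0, hm1⟩ := hlim (Q 0)
    refine ⟨m + 1, ?_⟩
    have h1 := iter_limit (F := F) hm0 hm1
    rw [← hform Q hQ] at h1
    rw [h1]
    exact fixed_s m
  · rw [hL]
    apply Set.ncard_pair
    intro h
    have := congrFun h 3
    simp at this
  · intro P hP
    rw [hL] at hP
    rcases hP with rfl | rfl
    · exact hd0
    · exact hd1
  · exact finite_fixed p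

end Pool.Agent.Results.MP_2dcdad_ag.TwoLimits
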